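import Pool.Agent.Y709.IrrS.Main
import Pool.Agent.Y709.Irr.Count
import Pool.Agent.Y709.Lay.CountX
import Pool.Agent.Y515.CntE.Main

/-!
The number of the twists with a zero over some covering, for pencils with simple collisions of any
degree, over an extension of the field with `q` elements.
-/

set_option autoImplicit false
set_option linter.unusedSectionVars false

open Polynomial Module

namespace Pool.Agent.Y709.IrrS

open Pool.Agent.W313.Hyp Pool.Agent.W343.BSD Pool.Agent.Y709 Pool.Agent.Y709.Gen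
open Pool.Agent.Y709.Lay Pool.Agent.Y709.Irr

section bound

variable {k : Type} [Field k] [Fintype k] {r q : ℕ}

theorem irr_smulS {σ : k →+* k} {Φ : Matrix (Fin r) (Fin r) k[X]} (h : IrrXS q σ Φ) {B : k[X]}
    (hB : B ≠ 0) : IrrXS q σ (Matrix.of fun i j => B * Φ i j) := by
  intro S L₀ u₀ h1 h2 h3 h4
  obtain ⟨x, hx, L, hL, hne⟩ := h S L₀ u₀ h1 h2 h3 h4
  refine ⟨x, hx, L, hL, ?_⟩
  have h5 : ∑ b, expand k q ((L b).map σ) *
      ∑ j, (Matrix.of fun i j => B * Φ i j) b j * x j =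
      B * ∑ b, expand k q ((L b).map σ) * ∑ j, Φ b j * x j := by
    rw [Finset.mul_sum]
    refine Finset.sum_congr rfl fun b _ => ?_
    rw [Finset.mul_sum, Finset.mul_sum, Finset.mul_sum]
    refine Finset.sum_congr rfl fun j _ => ?_
    rw [Matrix.of_apply]
    ring
  rw [h5]
  exact mul_ne_zero hB hne

/-- the number of the twists with a fixed vector -/
theorem simple_boundS {p a s : ℕ} [hp : Fact p.Prime] [CharP k p] (hq : q = p ^ a) (ha : 0 < a)
    (hs : 0 < s) (hk : Fintype.card k = q ^ s) (B : k[X]) (hB : B ≠ 0)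
    (b : ℕ) (hb : ∀ P : k[X], Irreducible P → ¬ P ^ (b + 1) ∣ B) {β : Fin (r + 1) → k[X]}
    {m : Fin (r + 1) → ℕ} {d : ℕ} (h : Simple β d) (hm : ∀ i, 0 < m i)
    (hinv : ∀ i : ℕ, i < ∑ l, m l → ((i : k) + 1) ≠ 0) (hrn : r * ∑ l, m l ≤ q - 1)
    (hnb : ∑ l, m l + b + 3 * r + 4 ≤ q) (hrq : 4 * (r + 1) ^ 2 ≤ q) (f ρ V N : ℕ)
    (hf : f = B.natDegree + d * ∑ l, m l) (hρ : 2 * r + 1 ≤ ρ) (hρq : ρ + 2 ≤ q)
    (hV : 8 * (r + 1) ^ 2 * (f + 1) ≤ V) (hN : N + f = (q - 1) * V + ρ) :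
    q * Nat.card {D : k[X] // D.natDegree ≤ N ∧ ∃ w : Fin r → k[X], w ≠ 0 ∧
      ∀ i, cart q (D * ∑ j, minor B β m i j * w j) = (w i).map (iterateFrobenius k p a)} ≤
      2 * Nat.card k ^ (N + 1) := by
  have hσ : ∀ x, iterateFrobenius k p a x = x ^ q := fun x => by rw [iterateFrobenius_def, hq]
  have hcount := Pool.Agent.Y515.cntDetS k q s hk p a hq hs (iterateFrobenius k p a) hσ r
  have hmle : ∀ i, m i < q := by
    intro i
    have : m i ≤ ∑ i, m i := Finset.single_le_sum (f := m) (fun _ _ => Nat.zero_le _)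
      (Finset.mem_univ i)
    omega
  have hinj : Function.Injective β := by
    intro i j hij
    by_contra hne
    exact h.ne hne (sub_eq_zero.2 hij)
  have hdet := det_minor (k := k) hq ha (one_ne_zero (α := k[X])) hinj hm hmle hinv
  have hmq : ∑ i, m i < q - 1 := by omega
  have hirr : IrrXS q (iterateFrobenius k p a) (minor B β m) := by
    rw [minor_eq]
    exact irr_smulS (irr_minorS hq ha hσ hm hinv h.pos h.deg h.degD h.sq h.col hdet hrn) hB
  have hdeg1 : ∀ i j, (minor 1 β m i j).natDegree ≤ d * ∑ l, m l := by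
    intro i j
    unfold minor
    rw [Matrix.of_apply, one_mul]
    exact natDegree_phi h.deg hm _ _ _
  refine hcount (minor B β m) (minor 1 β m).adjugate (B * (minor 1 β m).det) f
    (∑ l, m l + b) ρ V N ?_ ?_ (mul_ne_zero hB hdet) ?_ ?_ hirr hnb hrq hρ hρq hV hN
  · intro i j
    rw [minor_eq, Matrix.of_apply, hf]
    exact natDegree_mul_le.trans (Nat.add_le_add_left (hdeg1 i j) _)
  · have h1 : (Matrix.of fun i j => (minor B β m i j).coeff f) =
        B.leadingCoeff • (Matrix.of fun i j => (minor 1 β m i j).coeff (d * ∑ l, m l)) := by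
      refine Matrix.ext fun i j => ?_
      rw [Matrix.of_apply, Matrix.smul_apply, Matrix.of_apply, smul_eq_mul, minor_eq,
        Matrix.of_apply, hf, coeff_mul_add_eq_of_natDegree_le le_rfl (hdeg1 i j)]
      rfl
    rw [h1, Matrix.det_smul]
    exact mul_ne_zero (pow_ne_zero _ (leadingCoeff_ne_zero.2 hB)) (lead_det h hm hinv hdet)
  · rw [minor_eq]
    have h1 : (Matrix.of fun i j => B * minor 1 β m i j) = B • minor 1 β m := rfl
    rw [h1, Matrix.smul_mul, Matrix.mul_adjugate, smul_smul]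
  · intro P hP
    have h1 := mult_det h hm hinv hdet hP
    have h2 := not_pow_dvd_mul hP.prime (hb P hP) h1
    rwa [add_comm b] at h2

/-- **the number of the twists with a zero over some covering, simple collisions** -/
theorem countXS {p f₀ s : ℕ} [hp : Fact p.Prime] [CharP k p] (hq : q = p ^ f₀) (hf₀ : 0 < f₀)
    (hs : 0 < s) (hk : Fintype.card k = q ^ s) (B : k[X]) (hB : B ≠ 0)
    (b : ℕ) (hb : ∀ P : k[X], Irreducible P → ¬ P ^ (b + 1) ∣ B) {β : Fin (r + 1) → k[X]}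
    {m : Fin (r + 1) → ℕ} {d : ℕ} (h : Simple β d) (hm : ∀ i, 0 < m i)
    (hmp : ∑ l, m l < p) (hrn : r * ∑ l, m l ≤ q - 1)
    (hnb : ∑ l, m l + b + 3 * r + 4 ≤ q) (hrq : 4 * (r + 1) ^ 2 ≤ q) (f ρ V N e : ℕ)
    (hf : f = B.natDegree + d * ∑ l, m l) (he : e ∣ q - 1) (hρ : 2 * r + 1 ≤ ρ) (hρq : ρ + 2 ≤ q)
    (hV : 8 * (r + 1) ^ 2 * (f + 1) ≤ V) (hN : N + f = (q - 1) * V + ρ) :
    q * {D : k[X] | D.natDegree ≤ N ∧ VanX p (q - 1) e (D * B) β m}.ncard ≤
      2 * e * Nat.card k ^ (N + 1) := by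
  obtain ⟨φ⟩ := exists_const k p f₀ s hf₀ (by rw [hk, hq])
  let k₀ := GaloisField p f₀
  letI : Algebra k₀ k := φ.toAlgebra
  have hfin : Finite k₀ := Nat.finite_of_card_ne_zero (by
    rw [GaloisField.card p f₀ hf₀.ne']
    exact pow_ne_zero _ hp.out.ne_zero)
  letI : Fintype k₀ := Fintype.ofFinite k₀
  have hk₀ : Fintype.card k₀ = q := by
    rw [← Nat.card_eq_fintype_card, GaloisField.card p f₀ hf₀.ne', hq]
  have hcp : CharP k₀ p := φ.charP φ.injective p
  have hinv : ∀ i : ℕ, i < ∑ l, m l → ((i : k₀) + 1) ≠ 0 := by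
    intro i hi h
    have h1 : ((i + 1 : ℕ) : k₀) = 0 := by rw [Nat.cast_succ, h]
    rw [CharP.cast_eq_zero_iff k₀ p] at h1
    have h2 := Nat.le_of_dvd (Nat.succ_pos i) h1
    omega
  have hinv' : ∀ i : ℕ, i < ∑ l, m l → ((i : k) + 1) ≠ 0 := by
    intro i hi h
    have h1 : ((i + 1 : ℕ) : k) = 0 := by rw [Nat.cast_succ, h]
    rw [CharP.cast_eq_zero_iff k p] at h1
    have h2 := Nat.le_of_dvd (Nat.succ_pos i) h1
    omega
  have h6 := simple_boundS hq hf₀ hs hk B hB b hb h hm hinv' hrn hnb hrq f ρ V N hf hρ hρq hV hN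
  have hn0 : 0 < ∑ i, m i := Finset.sum_pos (fun i _ => hm i) ⟨0, Finset.mem_univ _⟩
  have h7 := countL_of_bound (k₀ := k₀) (k := k) (p := p) (s := s) hq hf₀ hk₀ hs hk (by omega) B β m
    hm (by omega) hinv N e _ he le_rfl
  have h8 : {D : k[X] | D.natDegree ≤ N ∧ VanX p (q - 1) e (D * B) β m}.ncard ≤
      {D : k[X] | D.natDegree ≤ N ∧ VanL k₀ p q s e (D * B) β m}.ncard :=
    Set.ncard_le_ncard (fun D hD => ⟨hD.1, vanL_of_vanX hk₀ hk hD.2⟩)
      ((finite_natDegree_le N).subset fun D hD => hD.1)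
  calc q * {D : k[X] | D.natDegree ≤ N ∧ VanX p (q - 1) e (D * B) β m}.ncard ≤
      q * (e * _) := Nat.mul_le_mul_left q (h8.trans h7)
    _ = e * (q * _) := by ring
    _ ≤ e * (2 * Nat.card k ^ (N + 1)) := Nat.mul_le_mul_left e h6
    _ = _ := by ring

end bound

end Pool.Agent.Y709.IrrS
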