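import Pool.Agent.Y709.Irr.Dich
import Pool.Agent.Y709.GStm4

/-!
Stable lattices modulo an irreducible polynomial: the semilinear case.
-/

set_option autoImplicit false
set_option linter.unusedSectionVars false

open Polynomial

namespace Pool.Agent.Y709.IrrS

open Pool.Agent.Y709 Pool.Agent.Y515.CntG Pool.Agent.Y709.Irr

variable {k : Type} [Field k] [Fintype k] {q r p a : ℕ} [hp : Fact p.Prime] [CharP k p]

/-- the expansion of the twist is the power -/
theorem expand_sig (hq : q = p ^ a) {σ : k →+* k} (hσ : ∀ x, σ x = x ^ q) (g : k[X]) :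
    expand k q (g.map σ) = g ^ q := by
  have h1 : σ = (iterateFrobenius k p a : k →+* k) := by
    refine RingHom.ext fun x => ?_
    rw [hσ, iterateFrobenius_def, ← hq]
  rw [← Polynomial.map_expand, h1, hq]
  exact map_iterateFrobenius_expand p g a

theorem exists_root_modS (hq : q = p ^ a) {P : k[X]} (hP : Irreducible P) (g : k[X]) :
    ∃ h : k[X], P ∣ g - h ^ q := by
  have hPf : Fact (Irreducible P) := ⟨hP⟩
  have hfin := finite_adjoinRoot hP
  have hpF : CharP (AdjoinRoot P) p :=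
    charP_of_injective_algebraMap (algebraMap k (AdjoinRoot P)).injective p
  have hinj : Function.Injective (fun a : AdjoinRoot P => a ^ q) := fun a b h =>
    pow_inj_mod hq h
  obtain ⟨z, hz⟩ := (Finite.injective_iff_surjective.1 hinj) (AdjoinRoot.mk P g)
  obtain ⟨h, rfl⟩ := AdjoinRoot.mk_surjective z
  refine ⟨h, ?_⟩
  rw [← AdjoinRoot.mk_eq_zero, map_sub, map_pow, sub_eq_zero]
  exact hz.symm

/-- the image under `Φ` is a `q`-th power modulo `P` -/
theorem image_modS (hq : q = p ^ a) {σ : k →+* k} (hσ : ∀ x, σ x = x ^ q)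
    (W : Submodule k[X] (Fin r → k[X]))
    (Φ : Matrix (Fin r) (Fin r) k[X])
    (hW : ∀ x ∈ W, ∀ i < q, ∃ y ∈ W, ∀ b, vcp q i (mv Φ x) b = (y b).map σ)
    {P : k[X]} (hP : Irreducible P) {x : Fin r → k[X]} (hx : x ∈ W) :
    ∃ z ∈ W, ∀ b, P ∣ mv Φ x b - z b ^ q := by
  have hq0 : 0 < q := by rw [hq]; exact pow_pos hp.out.pos a
  choose g hg using fun i : ℕ => exists_root_modS hq hP (X ^ (q - 1 - i))
  choose! y hyW hy using hW x hx
  refine ⟨∑ i ∈ Finset.range q, g i • y i, ?_, ?_⟩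
  · exact Submodule.sum_mem _ fun i hi => W.smul_mem _ (hyW i (Finset.mem_range.1 hi))
  · intro b
    have h1 : (∑ i ∈ Finset.range q, g i • y i) b ^ q =
        ∑ i ∈ Finset.range q, g i ^ q * expand k q (cp q i (mv Φ x b)) := by
      rw [Finset.sum_apply, hq, sum_pow_char_pow, ← hq]
      refine Finset.sum_congr rfl fun i hi => ?_
      rw [Pi.smul_apply, smul_eq_mul, mul_pow, ← expand_sig hq hσ (y i b),
        ← hy i (Finset.mem_range.1 hi) b]
      rfl
    have h2 : mv Φ x b - ∑ i ∈ Finset.range q, g i ^ q * expand k q (cp q i (mv Φ x b)) =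
        ∑ i ∈ Finset.range q, (X ^ (q - 1 - i) - g i ^ q) * expand k q (cp q i (mv Φ x b)) := by
      have h3 := cp_decomp hq0 (mv Φ x b)
      simp only [sub_mul, Finset.sum_sub_distrib]
      rw [← h3]
    rw [h1, h2]
    exact Finset.dvd_sum fun i _ => Dvd.dvd.mul_right (hg i) _

/-- **the dichotomy** -/
theorem dichS (hq : q = p ^ a) {σ : k →+* k} (hσ : ∀ x, σ x = x ^ q)
    (W : Submodule k[X] (Fin r → k[X]))
    (Φ : Matrix (Fin r) (Fin r) k[X])
    (hW : ∀ x ∈ W, ∀ i < q, ∃ y ∈ W, ∀ b, vcp q i (mv Φ x) b = (y b).map σ)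
    {P : k[X]} (hP : Irreducible P) :
    (∀ y ∈ W, ∃ x ∈ W, ∀ b, P ∣ mv Φ x b - y b ^ q) ∨
      (∃ x ∈ W, (∃ b, ¬ P ∣ x b) ∧ ∀ b, P ∣ mv Φ x b) := by
  classical
  by_cases hB : ∃ x ∈ W, (∃ b, ¬ P ∣ x b) ∧ ∀ b, P ∣ mv Φ x b
  · exact Or.inr hB
  left
  push Not at hB
  have hPf : Fact (Irreducible P) := ⟨hP⟩
  have hfin := finite_adjoinRoot hP
  have hpF : CharP (AdjoinRoot P) p :=
    charP_of_injective_algebraMap (algebraMap k (AdjoinRoot P)).injective p
  let red : (Fin r → k[X]) → (Fin r → AdjoinRoot P) := fun x b => AdjoinRoot.mk P (x b)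
  let Wb : Set (Fin r → AdjoinRoot P) := red '' (W : Set (Fin r → k[X]))
  have hch : ∀ y : Wb, ∃ x ∈ W, red x = y.1 := fun y => y.2
  choose ch hchW hchr using hch
  choose im himW him using fun y : Wb => image_modS hq hσ W Φ hW hP (hchW y)
  let T : Wb → Wb := fun y => ⟨red (im y), im y, himW y, rfl⟩
  have hT : Function.Injective T := by
    intro y1 y2 h
    have h1 : red (im y1) = red (im y2) := congrArg Subtype.val h
    have h2 : ch y1 - ch y2 ∈ W := W.sub_mem (hchW y1) (hchW y2)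
    have h3 : ∀ b, P ∣ (ch y1 - ch y2) b := by
      by_contra hcon
      push Not at hcon
      obtain ⟨b, hb⟩ := hB _ h2 hcon
      apply hb
      rw [mv_add']
      have h4 : P ∣ im y1 b ^ q - im y2 b ^ q := by
        rw [← AdjoinRoot.mk_eq_zero, map_sub, map_pow, map_pow, sub_eq_zero]
        exact congrArg (· ^ q) (congrFun h1 b)
      have h5 : mv Φ (ch y1) b - mv Φ (ch y2) b = (mv Φ (ch y1) b - im y1 b ^ q) -
          (mv Φ (ch y2) b - im y2 b ^ q) + (im y1 b ^ q - im y2 b ^ q) := by ring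
      rw [h5]
      exact dvd_add (dvd_sub (him y1 b) (him y2 b)) h4
    apply Subtype.ext
    rw [← hchr y1, ← hchr y2]
    funext b
    have h4 := h3 b
    rw [Pi.sub_apply, ← AdjoinRoot.mk_eq_zero, map_sub, sub_eq_zero] at h4
    exact h4
  have hTs := Finite.injective_iff_surjective.1 hT
  intro y hy
  obtain ⟨z, hz⟩ := hTs ⟨red y, y, hy, rfl⟩
  refine ⟨ch z, hchW z, ?_⟩
  intro b
  have h1 : red (im z) = red y := congrArg Subtype.val hz
  have h4 : P ∣ im z b ^ q - y b ^ q := by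
    rw [← AdjoinRoot.mk_eq_zero, map_sub, map_pow, map_pow, sub_eq_zero]
    exact congrArg (· ^ q) (congrFun h1 b)
  have h5 : mv Φ (ch z) b - y b ^ q = (mv Φ (ch z) b - im z b ^ q) + (im z b ^ q - y b ^ q) := by
    ring
  rw [h5]
  exact dvd_add (him z b) h4

end Pool.Agent.Y709.IrrS
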