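import Pool.Agent.Y709.Irr.Alg

/-!
The kernel of `Φ` modulo an irreducible polynomial.
-/

set_option autoImplicit false
set_option linter.unusedSectionVars false

open Polynomial

namespace Pool.Agent.Y709.IrrS

open Pool.Agent.Y709 Pool.Agent.Y515.CntG Pool.Agent.Y709.Gen Pool.Agent.Y709.Irr

variable {k : Type} [Field k] [Fintype k] {r : ℕ}

/-- a vector in the kernel modulo `P`, where two sections meet -/
theorem ker_modS {q p s : ℕ} [hpf : Fact p.Prime] [CharP k p] (hqs : q = p ^ s) (hs0 : 0 < s) (β : Fin (r + 1) → k[X])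
    {m : Fin (r + 1) → ℕ} (hm : ∀ i, 0 < m i) (hmq : ∑ l, m l < q)
    (hinv : ∀ i : ℕ, i < ∑ l, m l → ((i : k) + 1) ≠ 0) {P : k[X]} (hP : Irreducible P)
    {i j : Fin (r + 1)} (hij : i ≠ j) (hPij : P ∣ β i - β j)
    (hcol : ∀ a b, a ≠ b → P ∣ β a - β b → (a = i ∧ b = j) ∨ (a = j ∧ b = i))
    (x L : Fin r → k[X]) (hx : ∀ b, P ∣ mv (minor 1 β m) x b) (hL : ∑ b, L b * x b = 0)
    (hne : ∃ b, ¬ P ∣ x b) : P ∣ (m j : k[X]) * hatL L i - (m i : k[X]) * hatL L j := by
  classical
  have hPf : Fact (Irreducible P) := ⟨hP⟩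
  have hpF : CharP (AdjoinRoot P) p :=
    charP_of_injective_algebraMap (algebraMap k (AdjoinRoot P)).injective p
  let π : k[X] →+* AdjoinRoot P := AdjoinRoot.mk P
  have hπ : ∀ a : k, π (algebraMap k k[X] a) = algebraMap k (AdjoinRoot P) a := fun a => rfl
  let u : Fin (r + 1) → AdjoinRoot P := fun a => π ((Fin.cons 0 x : Fin (r + 1) → k[X]) a)
  have hu0 : u 0 = 0 := by
    show π ((Fin.cons 0 x : Fin (r + 1) → k[X]) 0) = 0
    rw [Fin.cons_zero, map_zero]
  have hu : (phi k (fun a => π (β a)) m 0).mulVec u = 0 := by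
    funext a
    rw [Matrix.mulVec, dotProduct, Pi.zero_apply]
    have h1 := congrArg π (ext_mv β m x a)
    rw [map_sum] at h1
    have h2 : π ((Fin.cons 0 (mv (minor 1 β m) x) : Fin (r + 1) → k[X]) a) = 0 := by
      refine Fin.cases ?_ (fun a => ?_) a
      · rw [Fin.cons_zero, map_zero]
      · rw [Fin.cons_succ]
        exact AdjoinRoot.mk_eq_zero.2 (hx a)
    rw [h2] at h1
    rw [h1]
    refine Finset.sum_congr rfl fun j _ => ?_
    rw [map_mul, map_phi k π hπ]
  obtain ⟨c, hc⟩ := phi_ker_gen (k := k) hqs hs0 (fun a => π (β a)) hm hmq hinv 0 u hu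
  have hπeq : ∀ a b, π (β a) = π (β b) ↔ P ∣ β a - β b := by
    intro a b
    rw [← sub_eq_zero, ← map_sub]
    exact AdjoinRoot.mk_eq_zero
  have hmne : ∀ a, ((m a : ℕ) : AdjoinRoot P) ≠ 0 := by
    intro a h
    have h1 : m a ≤ ∑ l, m l := Finset.single_le_sum (f := m) (fun _ _ => Nat.zero_le _)
      (Finset.mem_univ a)
    have h2 := hm a
    apply hinv (m a - 1) (by omega)
    apply (algebraMap k (AdjoinRoot P)).injective
    rw [map_add, map_natCast, map_one, map_zero, Nat.cast_sub h2, Nat.cast_one, h]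
    ring
  have hother : ∀ a, a ≠ i → a ≠ j → u a = c := by
    intro a hai haj
    have h1 := hc a
    rw [Finset.sum_eq_single a] at h1
    · exact sub_eq_zero.1 ((mul_eq_zero.1 h1).resolve_left (hmne a))
    · intro b hb hba
      rw [Finset.mem_filter] at hb
      exfalso
      rcases hcol b a hba ((hπeq b a).1 hb.2) with h2 | h2
      · exact haj h2.2
      · exact hai h2.2
    · intro h
      exfalso
      apply h
      rw [Finset.mem_filter]
      exact ⟨Finset.mem_univ a, rfl⟩
  have hpair : (m i : AdjoinRoot P) * (u i - c) + (m j : AdjoinRoot P) * (u j - c) = 0 := by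
    have h1 := hc i
    have h2 : (Finset.univ.filter fun b => π (β b) = π (β i)) = {i, j} := by
      ext b
      simp only [Finset.mem_filter, Finset.mem_univ, true_and, Finset.mem_insert,
        Finset.mem_singleton]
      constructor
      · intro h
        by_cases hbi : b = i
        · exact Or.inl hbi
        · rcases hcol b i hbi ((hπeq b i).1 h) with h2 | h2
          · exact absurd h2.1 hbi
          · exact Or.inr h2.1
      · rintro (rfl | rfl)
        · rfl
        · exact ((hπeq i b).2 hPij).symm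
    rw [h2, Finset.sum_pair hij] at h1
    exact h1
  have hdot : ∑ a, π (hatL L a) * u a = 0 := by
    have h1 := congrArg π (hatL_dot L x)
    rw [hL, map_zero, map_sum] at h1
    rw [← h1]
    exact Finset.sum_congr rfl fun a _ => (map_mul π _ _).symm
  have hdot' : ∑ a, π (hatL L a) * (u a - c) = 0 := by
    have h1 : ∑ a, π (hatL L a) = 0 := by rw [← map_sum, sum_hatL, map_zero]
    simp only [mul_sub, Finset.sum_sub_distrib]
    rw [hdot, ← Finset.sum_mul, h1, zero_mul, sub_zero]
  have hdot2 : π (hatL L i) * (u i - c) + π (hatL L j) * (u j - c) = 0 := by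
    rw [← hdot', ← Finset.sum_pair (f := fun a => π (hatL L a) * (u a - c)) hij]
    refine Finset.sum_subset (Finset.subset_univ _) fun a _ ha => ?_
    rw [Finset.mem_insert, Finset.mem_singleton, not_or] at ha
    rw [hother a ha.1 ha.2, sub_self, mul_zero]
  have hfin : ((m j : AdjoinRoot P) * π (hatL L i) - (m i : AdjoinRoot P) * π (hatL L j)) *
      (u i - c) = 0 := by
    have h1 : ((m j : AdjoinRoot P) * π (hatL L i) - (m i : AdjoinRoot P) * π (hatL L j)) *
      (u i - c) = (m j : AdjoinRoot P) * (π (hatL L i) * (u i - c) + π (hatL L j) * (u j - c)) -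
        π (hatL L j) * ((m i : AdjoinRoot P) * (u i - c) + (m j : AdjoinRoot P) * (u j - c)) := by
      ring
    rw [h1, hdot2, hpair, mul_zero, mul_zero, sub_zero]
  rcases mul_eq_zero.1 hfin with h | h
  · rw [← AdjoinRoot.mk_eq_zero, map_sub, map_mul, map_mul, map_natCast, map_natCast]
    exact h
  · exfalso
    rw [h, mul_zero, zero_add] at hpair
    have hj := (mul_eq_zero.1 hpair).resolve_left (hmne j)
    have hall : ∀ a, u a = c := by
      intro a
      by_cases hai : a = i
      · rw [hai]; exact sub_eq_zero.1 h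
      · by_cases haj : a = j
        · rw [haj]; exact sub_eq_zero.1 hj
        · exact hother a hai haj
    have hc0 : c = 0 := by rw [← hall 0, hu0]
    obtain ⟨b, hb⟩ := hne
    apply hb
    have h1 := hall b.succ
    rw [hc0] at h1
    exact AdjoinRoot.mk_eq_zero.1 h1

end Pool.Agent.Y709.IrrS
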