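import Pool.Agent.Y709.Irr.Main
import Pool.Agent.Y709.IrrS.Dich
import Pool.Agent.Y709.IrrS.Ker

/-!
The matrix `Φ` of a pencil with simple collisions is irreducible: the semilinear case.
-/

set_option autoImplicit false
set_option linter.unusedSectionVars false

open Polynomial

namespace Pool.Agent.Y709.IrrS

open Pool.Agent.Y709 Pool.Agent.Y515.CntG Pool.Agent.Y709.Gen Pool.Agent.Y709.Irr

variable {k : Type} [Field k] [Fintype k] {r q p a : ℕ} [hp : Fact p.Prime] [CharP k p]
  {σ : k →+* k}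

open Pool.Agent.Y515.Cnt in
/-- the vectors of least degree in a stable lattice: strict inequality -/
theorem least_ltS (hq : q = p ^ a) (hσ : ∀ x, σ x = x ^ q) {β : Fin (r + 1) → k[X]} {m : Fin (r + 1) → ℕ}
    {D f : ℕ} (hβD : ∀ i j, i ≠ j → (β i - β j).natDegree = D)
    (hsq : ∀ i j, i ≠ j → Squarefree (β i - β j))
    (hdet : (minor 1 β m).det ≠ 0) (hf : ∀ i j, (minor 1 β m i j).natDegree ≤ f)
    (hfD : f < D * (q - 1)) (W : Submodule k[X] (Fin r → k[X]))
    (hW : ∀ x ∈ W, ∀ i < q, ∃ y ∈ W, ∀ b, vcp q i (mv (minor 1 β m) x) b = (y b).map σ) {d : ℕ}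
    (hmin : ∀ x ∈ W, ∀ e, e < d → (∀ b, (x b).natDegree ≤ e) → x = 0)
    {x₀ : Fin r → k[X]} (hx₀ : x₀ ∈ W) (hx₀0 : x₀ ≠ 0) (hx₀d : ∀ b, (x₀ b).natDegree ≤ d) :
    (q - 1) * d < f := by
  classical
  have hq0 : 0 < q := by rw [hq]; exact pow_pos hp.out.pos a
  set Φ := minor 1 β m with hΦ
  -- the inequality
  have h1 : q * d ≤ f + d := by
    obtain ⟨i, hi, hne, hdeg⟩ := exists_comp hq0 (mv_ne_zero hdet hx₀0) (natDegree_mv hf hx₀d)
    obtain ⟨y, hyW, hy⟩ := hW x₀ hx₀ i hi
    have h3 : ¬ (f + d) / q < d := fun h => hne (funext fun b => by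
      rw [hy b, hmin y hyW _ h (fun b => by rw [← natDegree_map σ, ← hy b]; exact hdeg b),
        Pi.zero_apply, Polynomial.map_zero])
    rw [not_lt, Nat.le_div_iff_mul_le hq0, mul_comm] at h3
    exact h3
  have h2 : q * d = (q - 1) * d + d := by
    obtain ⟨t, rfl⟩ : ∃ t, q = t + 1 := ⟨q - 1, by omega⟩
    rw [Nat.add_sub_cancel]
    ring
  by_contra hcon
  have heq : q * d = f + d := by omega
  have hdD : d < D := by
    by_contra h
    have h3 : (q - 1) * D ≤ (q - 1) * d := Nat.mul_le_mul_left _ (by omega)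
    rw [mul_comm (q - 1) D] at h3
    omega
  -- the finite set of the vectors of degree at most `d`
  let W0 : Set (Fin r → k[X]) := {x | x ∈ W ∧ ∀ b, (x b).natDegree ≤ d}
  have hfinW : W0.Finite := by
    refine Set.Finite.subset (Finset.finite_toSet (Fintype.piFinset
      (fun _ : Fin r => PF k (d + 1)))) ?_
    rintro x ⟨_, hx⟩
    rw [Finset.mem_coe, Fintype.mem_piFinset]
    intro b
    rw [mem_PF_succ]
    exact hx b
  have hfin : Finite W0 := hfinW
  have himg : ∀ x ∈ W0, ∃ y ∈ W0, ∀ b, mv Φ x b = y b ^ q := by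
    rintro x ⟨hxW, hxd⟩
    have h3 := natDegree_mv hf hxd
    obtain ⟨y, hyW, hy⟩ := hW x hxW (q - 1) (by omega)
    refine ⟨y, ⟨hyW, fun b => ?_⟩, fun b => ?_⟩
    · rw [← natDegree_map σ, ← hy b]
      refine (natDegree_cp hq0 (by omega) _).trans ?_
      refine (Nat.div_le_div_right (h3 b)).trans ?_
      rw [← heq, Nat.mul_div_cancel_left _ hq0]
    · have h4 : ∀ i < q - 1, vcp q i (mv Φ x) = 0 := by
        intro i hi
        by_contra hne
        -- degree less than `d`
        have h5 : ∀ c, vcp q i (mv Φ x) c ≠ 0 → (vcp q i (mv Φ x) c).natDegree < d := by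
          intro c hc
          have h6 : (vcp q i (mv Φ x) c).coeff (vcp q i (mv Φ x) c).natDegree ≠ 0 := by
            rw [coeff_natDegree]
            exact leadingCoeff_ne_zero.2 hc
          have h7 : (vcp q i (mv Φ x) c).coeff (vcp q i (mv Φ x) c).natDegree =
              (mv Φ x c).coeff (q * (vcp q i (mv Φ x) c).natDegree + (q - 1 - i)) :=
            coeff_cp hq0 (by omega) _ _
          rw [h7] at h6
          have h8 := le_natDegree_of_ne_zero h6
          have h9 := h3 c
          by_contra h10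
          have h11 : q * d ≤ q * (vcp q i (mv Φ x) c).natDegree :=
            Nat.mul_le_mul_left q (not_lt.1 h10)
          omega
        have h6 : 0 < d := by
          obtain ⟨c, hc⟩ : ∃ c, vcp q i (mv Φ x) c ≠ 0 := by
            by_contra h
            push Not at h
            exact hne (funext h)
          exact (Nat.zero_le _).trans_lt (h5 c hc)
        obtain ⟨z, hzW, hz⟩ := hW x hxW i (by omega)
        have hz0 := hmin z hzW (d - 1) (by omega) fun c => by
          rw [← natDegree_map σ, ← hz c]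
          by_cases hc : vcp q i (mv Φ x) c = 0
          · rw [hc, natDegree_zero]
            exact Nat.zero_le _
          · have := h5 c hc
            omega
        apply hne
        funext c
        rw [hz c, hz0, Pi.zero_apply, Polynomial.map_zero]
      rw [← expand_sig hq hσ (y b), ← hy b]
      conv_lhs => rw [cp_decomp hq0 (mv Φ x b)]
      rw [Finset.sum_eq_single (q - 1)]
      · rw [Nat.sub_self, pow_zero, one_mul]
        rfl
      · intro i hi hne
        rw [Finset.mem_range] at hi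
        have h5 : cp q i (mv Φ x b) = 0 := congrFun (h4 i (by omega)) b
        rw [h5, map_zero, mul_zero]
      · intro h
        exact absurd (Finset.mem_range.2 (by omega)) h
  choose Y hY0 hYe using himg
  let T : W0 → W0 := fun x => ⟨Y x.1 x.2, hY0 x.1 x.2⟩
  have hT : Function.Injective T := by
    intro x y h
    have h3 : Y x.1 x.2 = Y y.1 y.2 := congrArg Subtype.val h
    apply Subtype.ext
    apply mv_injective hdet
    funext b
    rw [hYe x.1 x.2 b, hYe y.1 y.2 b, h3]
  obtain ⟨x, hx⟩ := (Finite.injective_iff_surjective.1 hT) ⟨x₀, hx₀, hx₀d⟩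
  have h3 : ∀ b, mv Φ x.1 b = x₀ b ^ q := by
    intro b
    rw [hYe x.1 x.2 b]
    exact congrArg (· ^ q) (congrFun (congrArg Subtype.val hx) b)
  apply hx₀0
  funext b
  have h4 := row_dvd β m x.1 b.succ 0
  rw [Fin.cons_succ, Fin.cons_zero, sub_zero, ← hΦ, h3 b] at h4
  have h5 : β b.succ - β 0 ∣ x₀ b :=
    ((hsq _ _ (Fin.succ_ne_zero b)).dvd_pow_iff_dvd hq0.ne').1 h4
  by_contra hne
  have h6 := natDegree_le_of_dvd h5 hne
  rw [hβD _ _ (Fin.succ_ne_zero b)] at h6
  have := hx₀d b
  omega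

/-- the degrees of the linear forms that vanish on a stable lattice -/
theorem least_dualS (hq : q = p ^ a) (hσ : ∀ x, σ x = x ^ q) {τ : k →+* k}
    (hστ : ∀ x, σ (τ x) = x) (hτσ : ∀ x, τ (σ x) = x) (Φ : Matrix (Fin r) (Fin r) k[X])
    {f : ℕ} (hdet : Φ.det ≠ 0) (hf : ∀ i j, (Φ i j).natDegree ≤ f)
    (W : Submodule k[X] (Fin r → k[X])) (hW : ∀ x ∈ W, ∀ i < q, ∃ y ∈ W, ∀ b, vcp q i (mv Φ x) b = (y b).map σ) {d : ℕ}
    (hmin : ∀ L : Fin r → k[X], (∀ x ∈ W, ∑ b, L b * x b = 0) → ∀ e, e < d →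
      (∀ b, (L b).natDegree ≤ e) → L = 0)
    {L : Fin r → k[X]} (hL : ∀ x ∈ W, ∑ b, L b * x b = 0) (hL0 : L ≠ 0)
    (hLd : ∀ b, (L b).natDegree ≤ d) : (q - 1) * d ≤ (r - 1) * f := by
  classical
  have hq0 : 0 < q := by rw [hq]; exact pow_pos hp.out.pos a
  -- the vector `L Ψ`
  let y : Fin r → k[X] := fun j => ∑ b, L b * Φ.adjugate b j
  have hyv : y = Matrix.vecMul L Φ.adjugate := rfl
  have hy0 : y ≠ 0 := by
    intro h
    apply hL0
    rw [hyv] at h
    have h1 : Matrix.vecMul (Matrix.vecMul L Φ.adjugate) Φ = 0 := by rw [h, Matrix.zero_vecMul]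
    rw [Matrix.vecMul_vecMul, Matrix.adjugate_mul, Matrix.vecMul_smul, Matrix.vecMul_one] at h1
    exact (smul_eq_zero.1 h1).resolve_left hdet
  have hyd : ∀ j, (y j).natDegree ≤ d + (r - 1) * f := by
    intro j
    refine natDegree_sum_le_of_forall_le _ _ fun b _ => ?_
    exact natDegree_mul_le.trans (Nat.add_le_add (hLd b) (natDegree_adjugate_le Φ hf b j))
  -- the components vanish on `W`
  have hker : ∀ x ∈ W, ∑ j, expand k q ((x j).map σ) * y j = 0 := by
    intro x hx
    by_contra hne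
    obtain ⟨P, hP, hPd⟩ := exists_irred_not_dvd (mul_ne_zero hne hdet)
    rcases dichS hq hσ W Φ hW hP with h | ⟨x', hx'W, ⟨b, hb⟩, hx'⟩
    · obtain ⟨w, hwW, hw⟩ := h x hx
      apply hPd
      apply Dvd.dvd.mul_right
      have h1 : ∑ j, y j * mv Φ w j = 0 := by
        have h2 : ∑ j, y j * mv Φ w j = Matrix.vecMul L Φ.adjugate ⬝ᵥ Φ.mulVec w := rfl
        rw [h2, ← Matrix.dotProduct_mulVec, Matrix.mulVec_mulVec, Matrix.adjugate_mul,
          Matrix.smul_mulVec, Matrix.one_mulVec, dotProduct_smul]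
        have h3 : L ⬝ᵥ w = 0 := hL w hwW
        rw [h3, smul_zero]
      have h2 : ∑ j, expand k q ((x j).map σ) * y j = -∑ j, y j * (mv Φ w j - x j ^ q) := by
        simp only [mul_sub, Finset.sum_sub_distrib]
        rw [h1, zero_sub, neg_neg]
        refine Finset.sum_congr rfl fun j _ => ?_
        rw [expand_sig hq hσ]
        ring
      rw [h2]
      exact (dvd_neg).2 (Finset.dvd_sum fun j _ => (hw j).mul_left _)
    · apply hPd
      apply Dvd.dvd.mul_left
      have h1 : Φ.adjugate.mulVec (Φ.mulVec x') = Φ.det • x' := by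
        rw [Matrix.mulVec_mulVec, Matrix.adjugate_mul, Matrix.smul_mulVec, Matrix.one_mulVec]
      have h2 : P ∣ Φ.det * x' b := by
        have h3 : Φ.det * x' b = ∑ j, Φ.adjugate b j * mv Φ x' j := (congrFun h1 b).symm
        rw [h3]
        exact Finset.dvd_sum fun j _ => (hx' j).mul_left _
      exact (hP.prime.dvd_or_dvd h2).resolve_right hb
  obtain ⟨i, hi, hne, hdeg⟩ := exists_comp hq0 hy0 hyd
  have h1 : ∀ x ∈ W, ∑ b, (vcp q i y b).map τ * x b = 0 := by
    intro x hx
    have h2 := (rel_iff hq0 y (fun b => (x b).map σ)).1 (hker x hx) i hi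
    have h3 := congrArg (Polynomial.map τ) h2
    rw [Polynomial.map_zero, Polynomial.map_sum] at h3
    rw [← h3]
    refine Finset.sum_congr rfl fun b _ => ?_
    rw [Polynomial.map_mul, Polynomial.map_map]
    have h4 : τ.comp σ = RingHom.id k := RingHom.ext hτσ
    rw [h4, Polynomial.map_id, mul_comm]
  have h3 : ¬ (d + (r - 1) * f) / q < d := fun h => hne (funext fun b => by
    have h5 := congrFun (hmin _ h1 _ h fun b => by rw [natDegree_map]; exact hdeg b) b
    rw [Pi.zero_apply] at h5 ⊢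
    exact (Polynomial.map_eq_zero τ).1 h5)
  rw [not_lt, Nat.le_div_iff_mul_le hq0, mul_comm] at h3
  have h2 : q * d = (q - 1) * d + d := by
    obtain ⟨t, rfl⟩ : ∃ t, q = t + 1 := ⟨q - 1, by omega⟩
    rw [Nat.add_sub_cancel]
    ring
  omega

/-- **The matrix of a pencil with simple collisions is irreducible.** -/
theorem irr_minorS (hq : q = p ^ a) (ha : 0 < a) (hσ : ∀ x, σ x = x ^ q) {β : Fin (r + 1) → k[X]} {m : Fin (r + 1) → ℕ}
    (hm : ∀ i, 0 < m i) (hinv : ∀ i : ℕ, i < ∑ l, m l → ((i : k) + 1) ≠ 0)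
    {D : ℕ} (hD : 0 < D) (hβd : ∀ i, (β i).natDegree ≤ D)
    (hβD : ∀ i j, i ≠ j → (β i - β j).natDegree = D)
    (hsq : ∀ i j, i ≠ j → Squarefree (β i - β j))
    (hcol : ∀ P : k[X], Irreducible P → ∀ i j, i ≠ j → P ∣ β i - β j → ∀ a b, a ≠ b →
      P ∣ β a - β b → (a = i ∧ b = j) ∨ (a = j ∧ b = i))
    (hdet : (minor 1 β m).det ≠ 0) (hmq : r * ∑ l, m l ≤ q - 1) :
    IrrXS q σ (minor 1 β m) := by
  classical
  -- the inverse of the Frobenius
  have hbij : Function.Bijective σ := Finite.injective_iff_bijective.1 σ.injective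
  let E : k ≃+* k := RingEquiv.ofBijective σ hbij
  let τ : k →+* k := (E.symm : k →+* k)
  have hστ : ∀ x, σ (τ x) = x := fun x => E.apply_symm_apply x
  have hτσ : ∀ x, τ (σ x) = x := fun x => E.symm_apply_apply x
  have hmst : ∀ g : k[X], (g.map τ).map σ = g := by
    intro g
    rw [Polynomial.map_map]
    have h4 : σ.comp τ = RingHom.id k := RingHom.ext hστ
    rw [h4, Polynomial.map_id]
  have hmts : ∀ g : k[X], (g.map σ).map τ = g := by
    intro g
    rw [Polynomial.map_map]
    have h4 : τ.comp σ = RingHom.id k := RingHom.ext hτσ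
    rw [h4, Polynomial.map_id]
  intro S L₀ u₀ hL₀S hL₀ hu₀ hSu
  by_contra hcon
  push Not at hcon
  have hq1 : 1 < q := by rw [hq]; exact Nat.one_lt_pow ha.ne' hp.out.one_lt
  have hq0 : 0 < q := by omega
  -- the rank is at least two
  have hr : 2 ≤ r := by
    by_contra hr
    rcases Nat.eq_zero_or_pos r with h0 | h0
    · subst h0
      exact hu₀ (Subsingleton.elim _ _)
    · obtain rfl : r = 1 := by omega
      have h1 := hSu L₀ hL₀S
      rw [Fin.sum_univ_one] at h1
      rcases mul_eq_zero.1 h1 with h | h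
      · exact hL₀ (funext fun b => by rw [Subsingleton.elim b 0]; exact h)
      · exact hu₀ (funext fun b => by rw [Subsingleton.elim b 0]; exact h)
  have hn0 : 0 < ∑ l, m l := Finset.sum_pos (fun i _ => hm i) ⟨0, Finset.mem_univ _⟩
  have hnq : ∑ l, m l < q - 1 := by nlinarith
  set Φ := minor 1 β m with hΦ
  have hf : ∀ i j, (Φ i j).natDegree ≤ D * ∑ l, m l := by
    intro i j
    rw [hΦ]
    unfold minor
    rw [Matrix.of_apply, one_mul]
    exact natDegree_phi hβd hm _ _ _
  set W := zer S with hWdef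
  have hW : ∀ x ∈ W, ∀ i < q, ∃ y ∈ W, ∀ b, vcp q i (mv Φ x) b = (y b).map σ := by
    intro x hx i hi
    refine ⟨fun b => (vcp q i (mv Φ x) b).map τ, fun L hL => ?_, fun b => (hmst _).symm⟩
    have h1 := (rel_iff hq0 (mv Φ x) (fun b => (L b).map σ)).1 (hcon x hx L hL) i hi
    have h3 := congrArg (Polynomial.map τ) h1
    rw [Polynomial.map_zero, Polynomial.map_sum] at h3
    rw [← h3]
    refine Finset.sum_congr rfl fun b _ => ?_
    rw [Polynomial.map_mul, hmts]
  -- least degrees
  have hexA : ∃ d : ℕ, ∃ x ∈ W, x ≠ 0 ∧ ∀ b, (x b).natDegree ≤ d :=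
    ⟨∑ b, (u₀ b).natDegree, u₀, hSu, hu₀, fun b =>
      Finset.single_le_sum (f := fun b => (u₀ b).natDegree) (fun _ _ => Nat.zero_le _)
        (Finset.mem_univ b)⟩
  have hexB : ∃ d : ℕ, ∃ L : Fin r → k[X], (∀ x ∈ W, ∑ b, L b * x b = 0) ∧ L ≠ 0 ∧
      ∀ b, (L b).natDegree ≤ d :=
    ⟨∑ b, (L₀ b).natDegree, L₀, fun x hx => hx L₀ hL₀S, hL₀, fun b =>
      Finset.single_le_sum (f := fun b => (L₀ b).natDegree) (fun _ _ => Nat.zero_le _)
        (Finset.mem_univ b)⟩
  obtain ⟨x, hxW, hx0, hxd⟩ := Nat.find_spec hexA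
  obtain ⟨L, hLW, hL0, hLd⟩ := Nat.find_spec hexB
  have hminA : ∀ x ∈ W, ∀ e, e < Nat.find hexA → (∀ b, (x b).natDegree ≤ e) → x = 0 := by
    intro x hx e he h
    by_contra hne
    exact Nat.find_min hexA he ⟨x, hx, hne, h⟩
  have hminB : ∀ L : Fin r → k[X], (∀ x ∈ W, ∑ b, L b * x b = 0) → ∀ e, e < Nat.find hexB →
      (∀ b, (L b).natDegree ≤ e) → L = 0 := by
    intro L hL e he h
    by_contra hne
    exact Nat.find_min hexB he ⟨L, hL, hne, h⟩
  set dA := Nat.find hexA with hdA
  set dB := Nat.find hexB with hdB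
  have hA := least_ltS hq hσ hβD hsq hdet hf (Nat.mul_lt_mul_of_pos_left hnq hD) W hW hminA hxW hx0
    hxd
  have hB := least_dualS hq hσ hστ hτσ Φ hdet hf W hW hminB hLW hL0 hLd
  have hAB : dA + dB < D := by
    by_contra h
    have h1 : (q - 1) * D ≤ (q - 1) * (dA + dB) := Nat.mul_le_mul_left _ (by omega)
    have h2 : D * (r * ∑ l, m l) ≤ D * (q - 1) := Nat.mul_le_mul_left _ hmq
    have h3 : D * (r * ∑ l, m l) = D * ∑ l, m l + (r - 1) * (D * ∑ l, m l) := by
      obtain ⟨t, rfl⟩ : ∃ t, r = t + 1 := ⟨r - 1, by omega⟩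
      rw [Nat.add_sub_cancel]
      ring
    rw [Nat.mul_add] at h1
    rw [mul_comm D (q - 1)] at h2
    omega
  -- the products
  have hprod : ∀ i j, i ≠ j → (β i - β j) ∣ ((Fin.cons 0 x : Fin (r + 1) → k[X]) i -
      (Fin.cons 0 x : Fin (r + 1) → k[X]) j) *
        ((m j : k[X]) * hatL L i - (m i : k[X]) * hatL L j) := by
    intro i j hij
    refine dvd_of_prime_dvd (hsq i j hij) fun P hP hPij => ?_
    rcases dichS hq hσ W Φ hW hP with h | ⟨x', hx'W, hb, hx'⟩
    · apply Dvd.dvd.mul_right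
      obtain ⟨w, hwW, hw⟩ := h x hxW
      have h1 := hPij.trans (row_dvd β m w i j)
      have h2 : ∀ a : Fin (r + 1), P ∣ (Fin.cons 0 (mv (minor 1 β m) w) : Fin (r + 1) → k[X]) a -
          (Fin.cons 0 x : Fin (r + 1) → k[X]) a ^ q := by
        intro a
        refine Fin.cases ?_ (fun a => ?_) a
        · rw [Fin.cons_zero, Fin.cons_zero, zero_pow hq0.ne', sub_zero]
          exact dvd_zero _
        · rw [Fin.cons_succ, Fin.cons_succ]
          exact hw a
      have h3 : P ∣ ((Fin.cons 0 x : Fin (r + 1) → k[X]) i -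
          (Fin.cons 0 x : Fin (r + 1) → k[X]) j) ^ q := by
        rw [hq, sub_pow_char_pow, ← hq]
        have h4 := dvd_sub (dvd_add h1 (h2 j)) (h2 i)
        have h5 : (Fin.cons 0 (mv (minor 1 β m) w) : Fin (r + 1) → k[X]) i -
            (Fin.cons 0 (mv (minor 1 β m) w) : Fin (r + 1) → k[X]) j +
            ((Fin.cons 0 (mv (minor 1 β m) w) : Fin (r + 1) → k[X]) j -
              (Fin.cons 0 x : Fin (r + 1) → k[X]) j ^ q) -
            ((Fin.cons 0 (mv (minor 1 β m) w) : Fin (r + 1) → k[X]) i -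
              (Fin.cons 0 x : Fin (r + 1) → k[X]) i ^ q) =
            (Fin.cons 0 x : Fin (r + 1) → k[X]) i ^ q -
              (Fin.cons 0 x : Fin (r + 1) → k[X]) j ^ q := by ring
        rw [h5] at h4
        exact h4
      exact hP.prime.dvd_of_dvd_pow h3
    · apply Dvd.dvd.mul_left
      exact ker_modS hq ha β hm (by omega) hinv hP hij hPij (hcol P hP i j hij hPij) x' L hx'
        (hLW x' hx'W) hb
  have hxdeg : ∀ a, ((Fin.cons 0 x : Fin (r + 1) → k[X]) a).natDegree ≤ dA := by
    intro a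
    refine Fin.cases ?_ (fun a => ?_) a
    · rw [Fin.cons_zero, natDegree_zero]
      exact Nat.zero_le _
    · rw [Fin.cons_succ]
      exact hxd a
  have hLdeg : ∀ a, (hatL L a).natDegree ≤ dB := by
    intro a
    unfold hatL
    refine Fin.cases ?_ (fun a => ?_) a
    · rw [Fin.cons_zero, natDegree_neg]
      exact natDegree_sum_le_of_forall_le _ _ fun b _ => hLd b
    · rw [Fin.cons_succ]
      exact hLd a
  have hmne : ∀ a, ((m a : ℕ) : k) ≠ 0 := by
    intro a h
    have h1 : m a ≤ ∑ l, m l := Finset.single_le_sum (f := m) (fun _ _ => Nat.zero_le _)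
      (Finset.mem_univ a)
    have h2 := hm a
    apply hinv (m a - 1) (by omega)
    rw [Nat.cast_sub h2, Nat.cast_one, h]
    ring
  have hor : ∀ i j, (Fin.cons 0 x : Fin (r + 1) → k[X]) i =
      (Fin.cons 0 x : Fin (r + 1) → k[X]) j ∨
      C ((m i : k)⁻¹) * hatL L i = C ((m j : k)⁻¹) * hatL L j := by
    intro i j
    by_cases hij : i = j
    · left
      rw [hij]
    by_cases hz : ((Fin.cons 0 x : Fin (r + 1) → k[X]) i -
        (Fin.cons 0 x : Fin (r + 1) → k[X]) j) *
          ((m j : k[X]) * hatL L i - (m i : k[X]) * hatL L j) = 0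
    · rcases mul_eq_zero.1 hz with h | h
      · left
        exact sub_eq_zero.1 h
      · right
        have h1 := sub_eq_zero.1 h
        have hi : C ((m i : k)⁻¹) * (m i : k[X]) = 1 := by
          rw [← C_eq_natCast, ← C_mul, inv_mul_cancel₀ (hmne i), C_1]
        have hj : C ((m j : k)⁻¹) * (m j : k[X]) = 1 := by
          rw [← C_eq_natCast, ← C_mul, inv_mul_cancel₀ (hmne j), C_1]
        calc C ((m i : k)⁻¹) * hatL L i =
            C ((m i : k)⁻¹) * (C ((m j : k)⁻¹) * (m j : k[X])) * hatL L i := by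
              rw [hj, mul_one]
          _ = C ((m i : k)⁻¹) * C ((m j : k)⁻¹) * ((m j : k[X]) * hatL L i) := by ring
          _ = C ((m i : k)⁻¹) * C ((m j : k)⁻¹) * ((m i : k[X]) * hatL L j) := by rw [h1]
          _ = (C ((m i : k)⁻¹) * (m i : k[X])) * (C ((m j : k)⁻¹) * hatL L j) := by ring
          _ = _ := by rw [hi, one_mul]
    · exfalso
      have h1 := natDegree_le_of_dvd (hprod i j hij) hz
      rw [hβD i j hij] at h1
      have h2 : (((Fin.cons 0 x : Fin (r + 1) → k[X]) i -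
        (Fin.cons 0 x : Fin (r + 1) → k[X]) j) *
          ((m j : k[X]) * hatL L i - (m i : k[X]) * hatL L j)).natDegree ≤ dA + dB := by
        refine natDegree_mul_le.trans (Nat.add_le_add ?_ ?_)
        · exact (natDegree_sub_le _ _).trans (max_le (hxdeg i) (hxdeg j))
        · refine (natDegree_sub_le _ _).trans (max_le ?_ ?_)
          · refine natDegree_mul_le.trans ?_
            rw [natDegree_natCast, zero_add]
            exact hLdeg i
          · refine natDegree_mul_le.trans ?_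
            rw [natDegree_natCast, zero_add]
            exact hLdeg j
      omega
  rcases total_or (E1 := fun i j => (Fin.cons 0 x : Fin (r + 1) → k[X]) i =
      (Fin.cons 0 x : Fin (r + 1) → k[X]) j)
    (E2 := fun i j => C ((m i : k)⁻¹) * hatL L i = C ((m j : k)⁻¹) * hatL L j)
    (fun _ _ h => h.symm) (fun _ _ _ h h' => h.trans h') (fun _ _ h => h.symm)
    (fun _ _ _ h h' => h.trans h') hor with h | h
  · apply hx0
    funext b
    have h1 := h b.succ 0
    rw [Fin.cons_succ, Fin.cons_zero] at h1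
    exact h1
  · have h1 : ∀ a, hatL L a = (m a : k[X]) * (C ((m 0 : k)⁻¹) * hatL L 0) := by
      intro a
      rw [← h a 0, ← mul_assoc]
      have hi : (m a : k[X]) * C ((m a : k)⁻¹) = 1 := by
        rw [← C_eq_natCast, ← C_mul, mul_inv_cancel₀ (hmne a), C_1]
      rw [hi, one_mul]
    have h2 := sum_hatL L
    rw [Finset.sum_congr rfl fun a _ => h1 a, ← Finset.sum_mul, ← Nat.cast_sum] at h2
    have h3 : ((∑ a, m a : ℕ) : k[X]) ≠ 0 := by
      rw [← C_eq_natCast]
      intro h4
      rw [C_eq_zero] at h4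
      apply hinv (∑ a, m a - 1) (by omega)
      rw [Nat.cast_sub hn0, Nat.cast_one, h4]
      ring
    have h4 := (mul_eq_zero.1 h2).resolve_left h3
    apply hL0
    funext b
    have h5 := h1 b.succ
    rw [h4, mul_zero] at h5
    unfold hatL at h5
    rw [Fin.cons_succ] at h5
    exact h5

end Pool.Agent.Y709.IrrS
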