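import Pool.Agent.Y709.IrrS.Count
import Pool.Agent.Y709.Irr.Sq
import Mathlib.FieldTheory.Separable

/-!
Specialisation of pencils with simple collisions.
-/

set_option autoImplicit false
set_option linter.unusedSectionVars false

open Polynomial

namespace Pool.Agent.Y709.IrrS

/-- separable over the field of fractions -/
def Sepd {A : Type} [CommRing A] (h : A[X]) (c : A) : Prop :=
  ∃ u v : A[X], u * h + v * derivative h = C c

variable {A κ : Type} [CommRing A] [Field κ] (φ : A →+* κ)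

theorem squarefree_map {h : A[X]} {c : A} (hh : Sepd h c) (hc : φ c ≠ 0) :
    Squarefree (h.map φ) := by
  obtain ⟨u, v, huv⟩ := hh
  apply Separable.squarefree
  refine ⟨C (φ c)⁻¹ * u.map φ, C (φ c)⁻¹ * v.map φ, ?_⟩
  have h1 := congrArg (Polynomial.map φ) huv
  rw [Polynomial.map_add, Polynomial.map_mul, Polynomial.map_mul, map_C, ← derivative_map] at h1
  calc C (φ c)⁻¹ * u.map φ * h.map φ + C (φ c)⁻¹ * v.map φ * derivative (h.map φ) =
      C (φ c)⁻¹ * (u.map φ * h.map φ + v.map φ * derivative (h.map φ)) := by ring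
    _ = 1 := by rw [h1, ← C_mul, inv_mul_cancel₀ hc, C_1]

theorem not_pow_dvd {h B : A[X]} {c c' : A} {b : ℕ} (hh : Sepd h c) (hc : φ c ≠ 0)
    (hc' : φ c' ≠ 0) (hB : B ∣ C c' * h ^ b) {P : κ[X]} (hP : Irreducible P) :
    ¬ P ^ (b + 1) ∣ B.map φ := by
  intro h1
  have h2 : B.map φ ∣ C (φ c') * (h.map φ) ^ b := by
    have h3 := Polynomial.map_dvd φ hB
    rwa [Polynomial.map_mul, map_C, Polynomial.map_pow] at h3
  have h4 : P ^ (b + 1) ∣ (h.map φ) ^ b := by
    have h5 := h1.trans h2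
    exact (IsUnit.dvd_mul_left (isUnit_C.2 (isUnit_iff_ne_zero.2 hc'))).1 h5
  have hsq := squarefree_map φ hh hc
  have h6 : emultiplicity P (h.map φ) ≤ 1 := by
    rcases (squarefree_iff_emultiplicity_le_one _).1 hsq P with h7 | h7
    · exact h7
    · exact absurd h7 hP.not_isUnit
  have h8 : ((b + 1 : ℕ) : ℕ∞) ≤ emultiplicity P ((h.map φ) ^ b) := le_emultiplicity_of_pow_dvd h4
  rw [emultiplicity_pow hP.prime] at h8
  have h9 : (b : ℕ∞) * emultiplicity P (h.map φ) ≤ (b : ℕ∞) * 1 := mul_le_mul_right h6 _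
  have h10 := h8.trans h9
  rw [mul_one] at h10
  have h11 : b + 1 ≤ b := by exact_mod_cast h10
  omega

end Pool.Agent.Y709.IrrS
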